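import Mathlib
import Pool.Agent.Q264.Gap

/-!
# The signs of a second order recurrence with automatic coefficients need not be automatic

There is a `2`-automatic sequence `a` with values in `{-1, 0, 1}` such that the sequence of the signs of the solution of
`r_0 = 0`, `r_1 = 1`, `r_n = a_n r_{n-1} + r_{n-2}` is not `k`-automatic for any `k ≥ 2`.

The sequence is `a_n = 0` for odd `n` and `a_{2m} = c_m`, where `c_m = 0` if `m` is `0` or a power of two, and otherwise
`c_m = -1` if the binary expansion of `m` begins with `10` and `c_m = 1` if it begins with `11`. Then `r_n = 1` for odd `n`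
and `r_{2m} = ∑_{i ≤ m} c_i`, and this is `k - 1 - j` for `m = 2^k + j`, `0 ≤ j < 2^{k-1}`. So the sequence `sign r_{2m}` has
long runs of the value `-1` which begin after `m = 2^k + k - 1`. But in a `k'`-automatic sequence the starting points of
the runs of length at least `k'^e` have a number of residues modulo `k'^e` which is bounded independently of `e`
(`Q264.Gap.starts_bound`), since there is a bounded number of different blocks of length `k'^e`.
-/

set_option autoImplicit false

namespace Pool.Agent.Results.MP_c55a01_nt.SignNotAutomatic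

/-- `a` is `k`-automatic: its `k`-kernel, the set of the sequences `n ↦ a (k ^ e * n + j)` with `0 ≤ j < k ^ e`, is
finite. -/
def IsAutomatic (k : ℕ) (a : ℕ → ℤ) : Prop :=
  {f : ℕ → ℤ | ∃ e j : ℕ, j < k ^ e ∧ f = fun n => a (k ^ e * n + j)}.Finite

/-- the solution of `r_0 = 0`, `r_1 = 1`, `r_n = a_n r_{n-1} + r_{n-2}` -/
def r (a : ℕ → ℤ) : ℕ → ℤ
  | 0 => 0
  | 1 => 1
  | n + 2 => a (n + 2) * r a (n + 1) + r a n

open Q264.Gap

/-- the coefficients with even index -/
def c (n : ℕ) : ℤ :=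
  if n = 0 ∨ n = 2 ^ Nat.log 2 n then 0 else if 2 * n < 3 * 2 ^ Nat.log 2 n then -1 else 1

/-- the coefficients -/
def a (n : ℕ) : ℤ := if n % 2 = 1 then 0 else c (n / 2)

/-- the second digit -/
def G (n : ℕ) : ℤ := if 2 * n < 3 * 2 ^ Nat.log 2 n then -1 else 1

/-- auxiliary sequences -/
def F (x y : ℤ) (n : ℕ) : ℤ := if n = 0 then x else if n = 1 then y else G n

theorem log_two_mul (n : ℕ) (hn : n ≠ 0) : Nat.log 2 (2 * n) = Nat.log 2 n + 1 := by
  rw [mul_comm]
  exact Nat.log_mul_base (by norm_num) hn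

theorem log_two_mul_add (n : ℕ) (hn : n ≠ 0) : Nat.log 2 (2 * n + 1) = Nat.log 2 n + 1 := by
  have h1 := Nat.pow_log_le_self 2 hn
  have h2 := Nat.lt_pow_succ_log_self (b := 2) (by norm_num) n
  rw [Nat.log_eq_iff (by omega)]
  simp only [pow_succ] at h2 ⊢
  omega

theorem log_pos (n : ℕ) (hn : 2 ≤ n) : ∃ l, Nat.log 2 n = l + 1 := by
  have := Nat.log_pos (b := 2) (by norm_num) hn
  exact ⟨Nat.log 2 n - 1, by omega⟩

theorem G_even (n : ℕ) (hn : 1 ≤ n) : G (2 * n) = G n := by
  unfold G
  rw [log_two_mul n (by omega), pow_succ]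
  by_cases h : 2 * n < 3 * 2 ^ Nat.log 2 n
  · rw [if_pos h, if_pos (by omega)]
  · rw [if_neg h, if_neg (by omega)]

theorem G_odd (n : ℕ) (hn : 2 ≤ n) : G (2 * n + 1) = G n := by
  unfold G
  rw [log_two_mul_add n (by omega), pow_succ]
  obtain ⟨l, hl⟩ := log_pos n (by omega)
  rw [hl, pow_succ]
  by_cases h : 2 * n < 3 * (2 ^ l * 2)
  · rw [if_pos h, if_pos (by omega)]
  · rw [if_neg h, if_neg (by omega)]

theorem G_three : G 3 = 1 := by
  have : Nat.log 2 3 = 1 := by
    rw [Nat.log_eq_iff (by omega)]; norm_num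
  unfold G
  rw [this]
  norm_num

theorem G_one : G 1 = -1 := by
  unfold G
  rw [Nat.log_one_right]
  norm_num

theorem G_two : G 2 = -1 := by
  rw [show 2 = 2 * 1 by norm_num, G_even 1 le_rfl, G_one]

theorem a_even (n : ℕ) : a (2 * n) = c n := by
  unfold a
  rw [if_neg (by omega)]
  congr 1
  omega

theorem a_odd (n : ℕ) : a (2 * n + 1) = 0 := by
  unfold a
  rw [if_pos (by omega)]

theorem c_even (n : ℕ) : c (2 * n) = c n := by
  rcases Nat.eq_zero_or_pos n with rfl | hn
  · rfl
  · have h1 := G_even n hn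
    unfold G at h1
    unfold c
    rw [h1, log_two_mul n (by omega), pow_succ]
    by_cases h : n = 0 ∨ n = 2 ^ Nat.log 2 n
    · rw [if_pos h, if_pos (by omega)]
    · rw [if_neg h, if_neg (by omega)]

theorem c_odd (n : ℕ) : c (2 * n + 1) = F 0 1 n := by
  rcases Nat.eq_zero_or_pos n with rfl | hn
  · simp [c, F]
  · have h0 : c (2 * n + 1) = G (2 * n + 1) := by
      unfold c G
      rw [if_neg]
      rw [log_two_mul_add n (by omega), pow_succ]
      omega
    rw [h0]
    unfold F
    rw [if_neg (by omega)]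
    by_cases h1 : n = 1
    · subst h1
      rw [if_pos rfl]
      exact G_three
    · rw [if_neg h1, G_odd n (by omega)]

theorem F_even (x y : ℤ) (n : ℕ) : F x y (2 * n) = F x (-1) n := by
  unfold F
  rcases Nat.eq_zero_or_pos n with rfl | hn
  · simp
  · rw [if_neg (show ¬ (2 * n = 0) by omega), if_neg (show ¬ (2 * n = 1) by omega), if_neg (show ¬ (n = 0) by omega)]
    by_cases h1 : n = 1
    · subst h1
      rw [if_pos rfl]
      exact G_two
    · rw [if_neg h1, G_even n hn]

theorem F_odd (x y : ℤ) (n : ℕ) : F x y (2 * n + 1) = F y 1 n := by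
  unfold F
  rcases Nat.eq_zero_or_pos n with rfl | hn
  · simp
  · rw [if_neg (show ¬ (2 * n + 1 = 0) by omega), if_neg (show ¬ (2 * n + 1 = 1) by omega),
      if_neg (show ¬ (n = 0) by omega)]
    by_cases h1 : n = 1
    · subst h1
      rw [if_pos rfl]
      exact G_three
    · rw [if_neg h1, G_odd n (by omega)]

/-- a finite set of sequences which is closed under `f ↦ f(2n)`, `f ↦ f(2n+1)` contains the kernels of its elements -/
theorem kernel_subset (X : Set (ℕ → ℤ)) (h0 : ∀ f ∈ X, (fun n => f (2 * n)) ∈ X)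
    (h1 : ∀ f ∈ X, (fun n => f (2 * n + 1)) ∈ X) (e : ℕ) :
    ∀ f ∈ X, ∀ j : ℕ, j < 2 ^ e → (fun n => f (2 ^ e * n + j)) ∈ X := by
  induction e with
  | zero =>
    intro f hf j hj
    have : j = 0 := by simpa using hj
    subst this
    simpa using hf
  | succ e ih =>
    intro f hf j hj
    rw [pow_succ] at hj
    rcases Nat.even_or_odd' j with ⟨j', rfl | rfl⟩
    · have := ih _ (h0 f hf) j' (by omega)
      convert this using 2 with n
      congr 1
      rw [pow_succ]; ring
    · have := ih _ (h1 f hf) j' (by omega)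
      convert this using 2 with n
      congr 1
      rw [pow_succ]; ring

theorem a_automatic : IsAutomatic 2 a := by
  let Y : Set (ℕ → ℤ) := (fun p : ℤ × ℤ => F p.1 p.2) '' (({-1, 0, 1} : Set ℤ) ×ˢ ({-1, 0, 1} : Set ℤ))
  have hY : Y.Finite := Set.Finite.image _ (Set.Finite.prod (by simp) (by simp))
  let X : Set (ℕ → ℤ) := {a, c, fun _ => 0} ∪ Y
  have hX : X.Finite := (by simp : ({a, c, fun _ => 0} : Set (ℕ → ℤ)).Finite).union hY
  have h0 : ∀ f ∈ X, (fun n => f (2 * n)) ∈ X := by
    rintro f ((rfl | rfl | rfl) | ⟨⟨x, y⟩, ⟨hx, hy⟩, rfl⟩)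
    · left; right; left
      funext n; exact a_even n
    · left; right; left
      funext n; exact c_even n
    · left; right; right
      rfl
    · right
      refine ⟨(x, -1), ⟨hx, by simp⟩, ?_⟩
      funext n; exact (F_even x y n).symm
  have h1 : ∀ f ∈ X, (fun n => f (2 * n + 1)) ∈ X := by
    rintro f ((rfl | rfl | rfl) | ⟨⟨x, y⟩, ⟨hx, hy⟩, rfl⟩)
    · left; right; right
      funext n; exact a_odd n
    · right
      refine ⟨(0, 1), ⟨by simp, by simp⟩, ?_⟩
      funext n; exact (c_odd n).symm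
    · left; right; right
      rfl
    · right
      refine ⟨(y, 1), ⟨hy, by simp⟩, ?_⟩
      funext n; exact (F_odd x y n).symm
  refine hX.subset ?_
  rintro _ ⟨e, j, hj, rfl⟩
  exact kernel_subset X h0 h1 e a (by left; left; rfl) j hj

/-! ### The solution -/

theorem r_odd (n : ℕ) : r a (2 * n + 1) = 1 := by
  induction n with
  | zero => rfl
  | succ n ih =>
    rw [show 2 * (n + 1) + 1 = (2 * n + 1) + 2 by ring, r, ih, show 2 * n + 1 + 2 = 2 * (n + 1) + 1 by ring, a_odd]
    ring

theorem r_even_succ (n : ℕ) : r a (2 * (n + 1)) = c (n + 1) + r a (2 * n) := by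
  rw [show 2 * (n + 1) = 2 * n + 2 by ring, r, r_odd, show 2 * n + 2 = 2 * (n + 1) by ring, a_even]
  ring

theorem log_block (k j : ℕ) (hj : j < 2 ^ k) : Nat.log 2 (2 ^ k + j) = k := by
  have : 0 < 2 ^ k := by positivity
  rw [Nat.log_eq_iff (by right; omega)]
  rw [pow_succ]
  omega

/-- the values in the first half of the block `[2 ^ k, 2 ^ (k + 1))` -/
theorem r_first (k : ℕ) (hk : r a (2 * 2 ^ (k + 1)) = k) (j : ℕ) (hj : j < 2 ^ k) :
    r a (2 * (2 ^ (k + 1) + j)) = k - j := by
  induction j with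
  | zero => simpa using hk
  | succ j ih =>
    rw [show 2 ^ (k + 1) + (j + 1) = (2 ^ (k + 1) + j) + 1 by ring, r_even_succ, ih (by omega)]
    have hl := log_block (k + 1) (j + 1) (by rw [pow_succ]; omega)
    have hc : c (2 ^ (k + 1) + j + 1) = -1 := by
      unfold c
      rw [show 2 ^ (k + 1) + j + 1 = 2 ^ (k + 1) + (j + 1) by ring, hl, if_neg (by omega), if_pos (by rw [pow_succ]; omega)]
    rw [hc]
    push_cast
    ring

/-- the values in the second half of the block `[2 ^ k, 2 ^ (k + 1))` -/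
theorem r_second (k : ℕ) (hk : r a (2 * 2 ^ (k + 1)) = k) (j : ℕ) (hj : j < 2 ^ k) :
    r a (2 * (3 * 2 ^ k + j)) = k + 2 - 2 ^ k + j := by
  have hc : ∀ j, j < 2 ^ k → c (3 * 2 ^ k + j) = 1 := by
    intro j hj
    have hl := log_block (k + 1) (2 ^ k + j) (by rw [pow_succ]; omega)
    rw [show 2 ^ (k + 1) + (2 ^ k + j) = 3 * 2 ^ k + j by rw [pow_succ]; ring] at hl
    unfold c
    rw [hl, if_neg (by rw [pow_succ]; omega), if_neg (by rw [pow_succ]; omega)]
  induction j with
  | zero =>
    have h1 : 0 < 2 ^ k := by positivity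
    have h2 := r_first k hk (2 ^ k - 1) (by omega)
    rw [show 3 * 2 ^ k + 0 = (2 ^ (k + 1) + (2 ^ k - 1)) + 1 by rw [pow_succ]; omega, r_even_succ, h2,
      show 2 ^ (k + 1) + (2 ^ k - 1) + 1 = 3 * 2 ^ k + 0 by rw [pow_succ]; omega, hc 0 h1]
    push_cast [Nat.cast_sub (show 1 ≤ 2 ^ k from h1)]
    ring
  | succ j ih =>
    rw [show 3 * 2 ^ k + (j + 1) = (3 * 2 ^ k + j) + 1 by ring, r_even_succ, ih (by omega),
      show 3 * 2 ^ k + j + 1 = 3 * 2 ^ k + (j + 1) by ring, hc (j + 1) hj]
    push_cast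
    ring

theorem r_pow (k : ℕ) : r a (2 * 2 ^ (k + 1)) = k := by
  induction k with
  | zero =>
    have h1 : c 1 = 0 := by simp [c]
    have h2 : c 2 = 0 := by
      have := c_even 1
      rw [h1] at this
      exact this
    have h3 := r_even_succ 0
    have h4 := r_even_succ 1
    norm_num at h3 h4 ⊢
    rw [h4, h3, h1, h2]
    simp [r]
  | succ k ih =>
    have h1 : 0 < 2 ^ k := by positivity
    have h2 := r_second k ih (2 ^ k - 1) (by omega)
    have h3 : c (2 ^ (k + 1 + 1)) = 0 := by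
      have hl := log_block (k + 1 + 1) 0 (by positivity)
      unfold c
      rw [add_zero] at hl
      rw [hl, if_pos (Or.inr rfl)]
    rw [show 2 ^ (k + 1 + 1) = (3 * 2 ^ k + (2 ^ k - 1)) + 1 by rw [pow_succ, pow_succ]; omega, r_even_succ, h2,
      show 3 * 2 ^ k + (2 ^ k - 1) + 1 = 2 ^ (k + 1 + 1) by rw [pow_succ, pow_succ]; omega, h3]
    push_cast [Nat.cast_sub (show 1 ≤ 2 ^ k from h1)]
    ring

/-- if `b` has a finite kernel, so has the sequence `b (2 n)` -/
theorem kernel_two_mul {k : ℕ} (hk : 2 ≤ k) (b : ℕ → ℤ) (h : (kernel k b).Finite) :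
    (kernel k fun n => b (2 * n)).Finite := by
  have h2 : ({0, 1} : Set ℕ).Finite := by simp
  refine ((h.prod h2).image fun p => fun n : ℕ => p.1 (2 * n + p.2)).subset ?_
  rintro _ ⟨e, j, hj, rfl⟩
  have hke : 0 < k ^ e := by positivity
  refine ⟨(fun n => b (k ^ e * n + (2 * j) % k ^ e), (2 * j) / k ^ e), ⟨⟨e, _, Nat.mod_lt _ hke, rfl⟩, ?_⟩, ?_⟩
  · have : 2 * j / k ^ e < 2 := by
      rw [Nat.div_lt_iff_lt_mul hke]
      omega
    simp only [Set.mem_insert_iff, Set.mem_singleton_iff]
    generalize 2 * j / k ^ e = t at this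
    omega
  · funext n
    simp only
    congr 1
    have := Nat.div_add_mod (2 * j) (k ^ e)
    calc k ^ e * (2 * n + 2 * j / k ^ e) + 2 * j % k ^ e
        = 2 * (k ^ e * n) + (k ^ e * (2 * j / k ^ e) + 2 * j % k ^ e) := by ring
      _ = 2 * (k ^ e * n + j) := by rw [this]; ring

theorem sign_not_automatic {k : ℕ} (hk : 2 ≤ k) : ¬ IsAutomatic k (fun n => Int.sign (r a n)) := by
  intro h
  have h1 := kernel_two_mul hk (fun n => Int.sign (r a n)) h
  refine not_automatic hk (fun n => Int.sign (r a (2 * n))) (fun i => 2 ^ (i + 1) + i) 2 (fun i => (i : ℤ)) ?_ ?_ ?_ ?_ ?_ h1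
  · intro i
    push_cast
    ring
  · intro m hm
    exact ⟨m, hm, fun i => ⟨1, by push_cast; ring⟩⟩
  · exact Set.infinite_range_of_injective fun x y hxy => by simpa using hxy
  · refine Set.infinite_range_of_injective (StrictMono.injective ?_)
    apply strictMono_nat_of_lt_succ
    intro n
    rw [pow_succ 2 (n + 1)]
    have : 0 < 2 ^ (n + 1) := by positivity
    omega
  · intro L
    refine ⟨L + 5, fun i hi => ?_⟩
    have hpow : i + 1 + L < 2 ^ i := by
      have h2 : ∀ n : ℕ, 2 * (n + 5) < 2 ^ (n + 5) := by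
        intro n
        induction n with
        | zero => norm_num
        | succ n ih => rw [show n + 1 + 5 = (n + 5) + 1 by ring, pow_succ]; omega
      obtain ⟨t, rfl⟩ : ∃ t, i = t + 5 := ⟨i - 5, by omega⟩
      have := h2 t
      omega
    have key : ∀ j, i < j → j < 2 ^ i → Int.sign (r a (2 * (2 ^ (i + 1) + j))) = -1 := by
      intro j h1 h2
      rw [r_first i (r_pow i) j h2]
      exact Int.sign_eq_neg_one_of_neg (by omega)
    have h0 : Int.sign (r a (2 * (2 ^ (i + 1) + i))) = 0 := by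
      rw [r_first i (r_pow i) i (by omega)]
      simp
    constructor
    · simp only
      rw [h0, show 2 ^ (i + 1) + i + 1 = 2 ^ (i + 1) + (i + 1) by ring, key (i + 1) (by omega) (by omega)]
      norm_num
    · intro y hy1 hy2
      simp only
      obtain ⟨j, rfl⟩ : ∃ j, y = 2 ^ (i + 1) + j := ⟨y - 2 ^ (i + 1), by omega⟩
      rw [key j (by omega) (by omega), show 2 ^ (i + 1) + i + 1 = 2 ^ (i + 1) + (i + 1) by ring,
        key (i + 1) (by omega) (by omega)]

/-- **The signs need not be automatic.** -/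
theorem result : ∃ a : ℕ → ℤ, IsAutomatic 2 a ∧ (∀ n, a n ∈ ({-1, 0, 1} : Set ℤ)) ∧
    ∀ k : ℕ, 2 ≤ k → ¬ IsAutomatic k (fun n => Int.sign (r a n)) := by
  refine ⟨a, a_automatic, fun n => ?_, fun k hk => sign_not_automatic hk⟩
  unfold a c
  simp only [Set.mem_insert_iff, Set.mem_singleton_iff]
  split_ifs <;> simp

end Pool.Agent.Results.MP_c55a01_nt.SignNotAutomatic
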